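import Pool.Agent.H93.GS.Euler
import Pool.Agent.H93.GS.PiSum
import Pool.Agent.H93.GS.Per

/-!
# PP Infty: the reduced series at `q = 0`, and the cusps `1 / N` (MP_b63d87_nt, helper25)
-/

set_option autoImplicit false

namespace Pool.Agent.H25.PP

open Finset Filter Topology H93GS UpperHalfPlane
open scoped MatrixGroups

theorem qp_upper {q : ℂ} (hq : ‖q‖ ≤ 1 / 2) (m : ℕ) : ‖qp q m‖ ≤ Real.exp 1 := by
  have h1 : ‖qp q m‖ ≤ Real.exp (∑ j ∈ range m, (1 / 2 : ℝ) ^ (j + 1)) := by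
    unfold qp
    rw [norm_prod, Real.exp_sum]
    refine Finset.prod_le_prod (fun _ _ => norm_nonneg _) fun j _ => ?_
    have h2 : ‖(1 : ℂ) - q ^ (j + 1)‖ ≤ 1 + ‖q‖ ^ (j + 1) := by
      refine (norm_sub_le _ _).trans ?_
      rw [norm_one, norm_pow]
    have h3 : ‖q‖ ^ (j + 1) ≤ (1 / 2) ^ (j + 1) := pow_le_pow_left₀ (norm_nonneg _) hq _
    have h4 := Real.add_one_le_exp ((1 / 2 : ℝ) ^ (j + 1))
    linarith
  refine h1.trans (Real.exp_le_exp.2 ?_)
  have h2 : HasSum (fun j : ℕ => (1 / 2 : ℝ) ^ (j + 1)) 1 := by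
    have h3 := (hasSum_geometric_of_lt_one (show (0 : ℝ) ≤ 1 / 2 by norm_num)
      (by norm_num)).mul_left (1 / 2)
    have h4 : (1 / 2 : ℝ) * (1 - 1 / 2)⁻¹ = 1 := by norm_num
    rw [h4] at h3
    have h5 : (fun j : ℕ => (1 / 2 : ℝ) ^ (j + 1)) = fun j => 1 / 2 * (1 / 2) ^ j := by
      funext j
      ring
    rw [h5]
    exact h3
  exact sum_le_hasSum _ (fun _ _ => by positivity) h2

theorem qp_lower : ∃ c : ℝ, 0 < c ∧ ∀ q : ℂ, ‖q‖ ≤ 1 / 2 → ∀ m : ℕ, c ≤ ‖qp q m‖ := by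
  obtain ⟨c, hc, h⟩ := exists_lower (q := ((1 / 2 : ℝ) : ℂ)) (by
    rw [Complex.norm_real]
    norm_num)
  refine ⟨c, hc, fun q hq m => (h m).trans ?_⟩
  unfold qp
  rw [norm_prod, norm_prod]
  refine Finset.prod_le_prod (fun _ _ => norm_nonneg _) fun j _ => ?_
  have h1 : ‖(1 : ℂ) - ((1 / 2 : ℝ) : ℂ) ^ (j + 1)‖ = 1 - (1 / 2 : ℝ) ^ (j + 1) := by
    rw [← Complex.ofReal_pow, ← Complex.ofReal_one, ← Complex.ofReal_sub, Complex.norm_real,
      Real.norm_of_nonneg]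
    have : (1 / 2 : ℝ) ^ (j + 1) ≤ 1 := pow_le_one₀ (by norm_num) (by norm_num)
    linarith
  rw [h1]
  have h2 := norm_sub_norm_le (1 : ℂ) (q ^ (j + 1))
  rw [norm_one, norm_pow] at h2
  have h3 : ‖q‖ ^ (j + 1) ≤ (1 / 2) ^ (j + 1) := pow_le_pow_left₀ (norm_nonneg _) hq _
  linarith

theorem gt_tendsto {A B : Type} [Fintype A] [Fintype B] (adj : A → B → Prop)
    [∀ a s, Decidable (adj a s)] (E : (A → ℕ) → ℕ) (hE : E (fun _ => 0) = 0) :
    Tendsto (fun q : ℂ => ∑' n : A → ℕ, gt adj E q n) (𝓝 0) (𝓝 1) := by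
  classical
  obtain ⟨c, hc, hlow⟩ := qp_lower
  set C : ℝ := Real.exp 1 ^ Fintype.card B * c⁻¹ ^ Fintype.card A with hC
  have hC0 : 0 < C := by positivity
  have hnorm : ∀ q : ℂ, ‖q‖ ≤ 1 / 2 → ∀ n : A → ℕ,
      ‖gt adj E q n‖ ≤ C * ‖q‖ ^ ∑ a, n a := by
    intro q hq n
    have hq1 : ‖q‖ < 1 := by linarith
    unfold gt
    rw [norm_div, norm_mul, norm_prod, norm_prod, norm_pow, div_eq_mul_inv, ← Finset.prod_inv_distrib]
    have h1 : ∏ s, ‖qp q (mm adj n s)‖ ≤ Real.exp 1 ^ Fintype.card B := by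
      rw [← Finset.card_univ, ← Finset.prod_const]
      exact Finset.prod_le_prod (fun _ _ => norm_nonneg _) fun s _ => qp_upper hq _
    have h2 : ∏ a, ‖qp q (n a)‖⁻¹ ≤ c⁻¹ ^ Fintype.card A := by
      rw [← Finset.card_univ, ← Finset.prod_const]
      exact Finset.prod_le_prod (fun _ _ => by positivity) fun a _ =>
        inv_anti₀ hc (hlow q hq _)
    have h3 : ‖q‖ ^ (E n + ∑ a, n a) ≤ ‖q‖ ^ ∑ a, n a :=
      pow_le_pow_of_le_one (norm_nonneg _) hq1.le (by omega)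
    calc ‖q‖ ^ (E n + ∑ a, n a) * (∏ s, ‖qp q (mm adj n s)‖) * ∏ a, ‖qp q (n a)‖⁻¹
        ≤ ‖q‖ ^ (∑ a, n a) * Real.exp 1 ^ Fintype.card B * c⁻¹ ^ Fintype.card A := by
          refine mul_le_mul (mul_le_mul h3 h1 (Finset.prod_nonneg fun _ _ => norm_nonneg _)
            (by positivity)) h2 (Finset.prod_nonneg fun _ _ => by positivity) (by positivity)
      _ = _ := by
          rw [hC]
          ring
  have hev : ∀ᶠ q : ℂ in 𝓝 0, ‖q‖ ≤ 1 / 2 := by
    filter_upwards [Metric.ball_mem_nhds (0 : ℂ) (show (0 : ℝ) < 1 / 2 by norm_num)] with q hq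
    rw [Metric.mem_ball, dist_zero_right] at hq
    exact hq.le
  obtain ⟨h5, -⟩ := pi_real (ι := A) (f := fun _ k => (1 / 2 : ℝ) ^ k)
    (fun _ _ => by positivity) fun _ => summable_geometric_of_lt_one (by norm_num) (by norm_num)
  have h6 : Tendsto (fun q : ℂ => ∑' n : A → ℕ, gt adj E q n) (𝓝 0)
      (𝓝 (∑' n : A → ℕ, if n = (fun _ => 0) then (1 : ℂ) else 0)) := by
    refine tendsto_tsum_of_dominated_convergence (h5.mul_left C) (fun n => ?_) ?_
    · by_cases hn : n = fun _ => 0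
      · rw [if_pos hn, hn]
        have h7 : ∀ q : ℂ, gt adj E q (fun _ => 0) = 1 := by
          intro q
          unfold gt
          rw [hE]
          simp [qp, mm]
        simp_rw [h7]
        exact tendsto_const_nhds
      · rw [if_neg hn]
        have h7 : ∑ a, n a ≠ 0 := by
          intro h
          rw [Finset.sum_eq_zero_iff] at h
          exact hn (funext fun a => h a (mem_univ a))
        have h8 : Tendsto (fun q : ℂ => C * ‖q‖ ^ ∑ a, n a) (𝓝 0) (𝓝 0) := by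
          have h9 : Tendsto (fun q : ℂ => ‖q‖) (𝓝 0) (𝓝 0) := by
            simpa using (continuous_norm (E := ℂ)).tendsto 0
          simpa [zero_pow h7] using (h9.pow (∑ a, n a)).const_mul C
        refine squeeze_zero_norm' ?_ h8
        filter_upwards [hev] with q hq
        exact hnorm q hq n
    · filter_upwards [hev] with q hq n
      refine (hnorm q hq n).trans (mul_le_mul_of_nonneg_left ?_ hC0.le)
      rw [Finset.prod_pow_eq_pow_sum]
      exact pow_le_pow_left₀ (norm_nonneg _) hq _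
  rwa [tsum_ite_eq] at h6

/-- the multiples of a period are periods -/
theorem period_mul {Δ : Subgroup SL(2, ℤ)} {M : ℕ}
    (h : ModularGroup.S * ModularGroup.T ^ M * ModularGroup.S⁻¹ ∈ Δ) (j : ℕ) :
    ModularGroup.S * ModularGroup.T ^ (M * j) * ModularGroup.S⁻¹ ∈ Δ := by
  rw [pow_mul, ← conj_pow]
  exact Δ.pow_mem h j

/-- the cusp `1 / N` -/
theorem cusp_one {F : ℍ → ℂ} {k : ℝ} {Δ : Subgroup SL(2, ℤ)}
    (hmod : ∀ γ ∈ Δ, ∀ τ : ℍ, ‖F (γ • τ)‖ = ‖denom γ τ‖ ^ k * ‖F τ‖) {N : ℕ} (hN : 0 < N)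
    (h : ModularGroup.S * ModularGroup.T ^ N * ModularGroup.S⁻¹ ∈ Δ) (w u : ℍ)
    (hw : w.re = 1 / N) (hu : u.re = -(1 / N)) (hwu : u.im = 1 / (N ^ 2 * w.im)) :
    ‖F w‖ = (N * w.im) ^ (-k) * ‖F u‖ := by
  have hN' : (0 : ℝ) < N := by exact_mod_cast hN
  have hY := w.im_pos
  set τ : ℍ := ModularGroup.S⁻¹ • w with hτ
  have hSτ : ModularGroup.S • τ = w := by rw [hτ, smul_inv_smul]
  have hw0 : (w : ℂ) ≠ 0 := UpperHalfPlane.ne_zero w
  have hτw : (τ : ℂ) = -(w : ℂ)⁻¹ := by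
    have h1 : ((ModularGroup.S • τ : ℍ) : ℂ) = (-(τ : ℂ))⁻¹ := by
      rw [UpperHalfPlane.modular_S_smul]
    rw [hSτ] at h1
    rw [h1, inv_inv, neg_neg]
  have hwc : (w : ℂ) = (1 / N : ℝ) + (w.im : ℂ) * Complex.I := by
    apply Complex.ext
    · simp [UpperHalfPlane.coe_re, hw]
    · simp
  have hN0 : (N : ℂ) ≠ 0 := by exact_mod_cast hN.ne'
  have hY0 : (w.im : ℂ) ≠ 0 := by exact_mod_cast hY.ne'
  have h1 : (N : ℂ) * w - 1 = N * w.im * Complex.I := by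
    rw [hwc]
    push_cast
    field_simp
    ring
  have hNτ : (((N : ℝ) +ᵥ τ : ℍ) : ℂ) = (N * w.im * Complex.I) / w := by
    have h2 : (((N : ℝ) +ᵥ τ : ℍ) : ℂ) = (N : ℂ) + τ := by
      rw [UpperHalfPlane.coe_vadd]
      push_cast
      rfl
    rw [h2, hτw, ← h1]
    field_simp
    ring
  have hu' : ModularGroup.S • ((N : ℝ) +ᵥ τ) = u := by
    apply UpperHalfPlane.ext
    have h2 : ((ModularGroup.S • ((N : ℝ) +ᵥ τ) : ℍ) : ℂ) = (-(((N : ℝ) +ᵥ τ : ℍ) : ℂ))⁻¹ := by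
      rw [UpperHalfPlane.modular_S_smul]
    rw [h2, hNτ]
    have huc : (u : ℂ) = -(1 / N : ℝ) + (u.im : ℂ) * Complex.I := by
      apply Complex.ext
      · simp [UpperHalfPlane.coe_re, hu]
      · simp
    have hI : Complex.I ≠ 0 := Complex.I_ne_zero
    have hI2 : Complex.I ^ 2 = -1 := Complex.I_sq
    rw [huc, hwu, inv_neg, inv_div, hwc]
    push_cast
    field_simp
    linear_combination (-1 : ℂ) * hI2
  have hp := norm_period hmod h τ
  rw [ModularGroup.denom_S, ModularGroup.denom_S, hSτ, hu', hNτ, hτw, norm_neg, norm_inv,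
    norm_div, norm_mul, norm_mul, Complex.norm_I, mul_one, Complex.norm_natCast,
    Complex.norm_real, Real.norm_of_nonneg hY.le] at hp
  have hwn : 0 < ‖(w : ℂ)‖ := norm_pos_iff.2 hw0
  have hNY : 0 < N * w.im := by positivity
  rw [Real.div_rpow hNY.le hwn.le, Real.inv_rpow hwn.le] at hp
  have h3 : 0 < ‖(w : ℂ)‖ ^ (-k) := Real.rpow_pos_of_pos hwn _
  field_simp at hp
  linarith

end Pool.Agent.H25.PP
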