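import Pool.Agent.H25.PP.Qpb
import Pool.Agent.H93.GS.PiSum

/-!
# PP LimRoot: the leading term at a primitive root of unity (MP_b63d87_nt, helper25)
-/

set_option autoImplicit false

namespace Pool.Agent.H25.PP

open Finset Filter Topology H93GS

theorem inv_bound {z : ℂ} (hn : ‖z‖ = 1) {t : ℝ} (ht : 0 < t) (ht1 : t ≤ 1) (m : ℕ) :
    ‖(t : ℂ) * (1 - qz z t ^ (1 + m))⁻¹‖ ≤ 2 := by
  have h1 := geo_half ht ht1
  have h2 : 1 - Real.exp (-t) ≤ ‖1 - qz z t ^ (1 + m)‖ := by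
    have h3 := norm_sub_norm_le (1 : ℂ) (qz z t ^ (1 + m))
    rw [norm_one, norm_pow, norm_qz hn] at h3
    have h4 : Real.exp (-t) ^ (1 + m) ≤ Real.exp (-t) ^ 1 :=
      pow_le_pow_of_le_one (Real.exp_pos _).le (Real.exp_le_one_iff.2 (by linarith)) (by omega)
    rw [pow_one] at h4
    linarith
  have h3 : 0 < ‖1 - qz z t ^ (1 + m)‖ := by linarith
  rw [norm_mul, norm_inv, Complex.norm_real, Real.norm_of_nonneg ht.le, ← div_eq_mul_inv,
    div_le_iff₀ h3]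
  linarith

theorem qz_tendsto (z : ℂ) : Tendsto (fun t : ℝ => qz z t) (𝓝[>] 0) (𝓝 z) := by
  have h1 : Continuous fun t : ℝ => qz z t := by
    unfold qz
    fun_prop
  have h2 := (h1.tendsto 0).mono_left (nhdsWithin_le_nhds (s := Set.Ioi (0 : ℝ)))
  simpa [qz] using h2

theorem qp_cont (m : ℕ) : Continuous fun q : ℂ => qp q m := by
  unfold qp
  fun_prop

section

variable {X B : Type} [Fintype X] [Fintype B] (adj : X → B → Prop)
  [∀ a s, Decidable (adj a s)] (E : (X → ℕ) → ℕ) (b : X → B)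

theorem gt_norm_le (hb : Function.Injective b) (hadj : ∀ a, adj a (b a)) (s₀ : B)
    (hs₀ : ∀ a, b a ≠ s₀) (h₀ : ∀ a, adj a s₀) {N : ℕ} (hN : 0 < N) {z : ℂ}
    (hz : IsPrimitiveRoot z N) : ∃ C : ℝ, 0 < C ∧ ∀ t : ℝ, 0 < t → t ≤ 1 → ∀ x : X → ℕ,
      ‖gt adj E (qz z t) x‖ ≤ C * (Real.exp (-t) ^ (∑ a, x a) * ‖qp (qz z t) (∑ a, x a)‖) := by
  classical
  obtain ⟨C, hC1, hC⟩ := block hN hz.pow_eq_one
  have hn : ‖z‖ = 1 := hz.norm'_eq_one hN.ne'
  refine ⟨C ^ Fintype.card B, by positivity, fun t ht ht1 x => ?_⟩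
  have hx1 : Real.exp (-t) < 1 := Real.exp_lt_one_iff.2 (by linarith)
  have hq : ‖qz z t‖ < 1 := by rw [norm_qz hn]; exact hx1
  have h4 : 0 < ∏ a, ‖qp (qz z t) (x a)‖ :=
    Finset.prod_pos fun a _ => norm_pos_iff.2 (qp_ne_zero hq _)
  have key : ∏ s, ‖qp (qz z t) (mm adj x s)‖ ≤ C ^ Fintype.card B *
      ((∏ a, ‖qp (qz z t) (x a)‖) * ‖qp (qz z t) (∑ a, x a)‖) := by
    have e : (∏ s : B, if s = s₀ then ‖qp (qz z t) (∑ a, x a)‖ else 1) =
        ‖qp (qz z t) (∑ a, x a)‖ := by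
      rw [Finset.prod_ite_eq' univ s₀ fun _ => ‖qp (qz z t) (∑ a, x a)‖]
      simp
    rw [← e, ← prod_extend b hb fun a => ‖qp (qz z t) (x a)‖, ← Finset.card_univ,
      ← Finset.prod_const, ← Finset.prod_mul_distrib, ← Finset.prod_mul_distrib]
    refine Finset.prod_le_prod (fun _ _ => norm_nonneg _) fun s _ => ?_
    by_cases h1 : ∃ a, b a = s
    · obtain ⟨a, rfl⟩ := h1
      rw [hb.extend_apply, if_neg (hs₀ a), mul_one]
      exact hC t ht ht1 _ _ (le_mm adj x (hadj a))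
    · rw [Function.extend_apply' _ _ _ h1, one_mul]
      by_cases h2 : s = s₀
      · rw [if_pos h2, h2]
        have h3 : mm adj x s₀ = ∑ a, x a := by
          unfold mm
          exact Finset.sum_congr rfl fun a _ => if_pos (h₀ a)
        rw [h3]
        exact hC t ht ht1 _ _ le_rfl
      · rw [if_neg h2]
        have h3 := hC t ht ht1 0 (mm adj x s) (Nat.zero_le _)
        have h5 : ‖qp (qz z t) 0‖ = 1 := by simp [qp]
        rwa [h5] at h3
  unfold gt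
  rw [norm_div, norm_mul, norm_prod, norm_prod, div_le_iff₀ h4, norm_pow, norm_qz hn]
  have h6 : Real.exp (-t) ^ (E x + ∑ a, x a) ≤ Real.exp (-t) ^ ∑ a, x a :=
    pow_le_pow_of_le_one (Real.exp_pos _).le hx1.le (by omega)
  calc Real.exp (-t) ^ (E x + ∑ a, x a) * ∏ s, ‖qp (qz z t) (mm adj x s)‖
      ≤ Real.exp (-t) ^ (∑ a, x a) * (C ^ Fintype.card B *
        ((∏ a, ‖qp (qz z t) (x a)‖) * ‖qp (qz z t) (∑ a, x a)‖)) :=
        mul_le_mul h6 key (Finset.prod_nonneg fun _ _ => norm_nonneg _) (by positivity)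
    _ = _ := by ring

theorem gt_single [DecidableEq X] (c : X) (hE : ∀ m : ℕ, E (Pi.single c m) = 0) (m : ℕ)
    {K : ℕ} (hK : (univ.filter fun s => adj c s).card = K + 1) {q : ℂ} (hq : qp q m ≠ 0) :
    gt adj E q (Pi.single c m) = q ^ m * qp q m ^ K := by
  unfold gt
  have h1 : ∀ s, mm adj (Pi.single c m) s = if adj c s then m else 0 := by
    intro s
    unfold mm
    rw [Finset.sum_eq_single c]
    · simp
    · intro a _ ha
      rw [Pi.single_eq_of_ne ha, ite_self]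
    · intro h
      exact absurd (mem_univ c) h
  have h2 : ∏ s, qp q (mm adj (Pi.single c m) s) = qp q m ^ (K + 1) := by
    rw [← hK, ← Finset.prod_const, Finset.prod_filter]
    refine Finset.prod_congr rfl fun s _ => ?_
    rw [h1]
    split_ifs
    · rfl
    · simp [qp]
  have h3 : ∏ a, qp q ((Pi.single c m : X → ℕ) a) = qp q m := by
    rw [Finset.prod_eq_single c]
    · simp
    · intro a _ ha
      rw [Pi.single_eq_of_ne ha]
      simp [qp]
    · intro h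
      exact absurd (mem_univ c) h
  have h4 : ∑ a, (Pi.single c m : X → ℕ) a = m := by
    rw [Finset.sum_eq_single c]
    · simp
    · intro a _ ha
      rw [Pi.single_eq_of_ne ha]
    · intro h
      exact absurd (mem_univ c) h
  rw [h2, h3, h4, hE, zero_add, pow_succ (qp q m)]
  field_simp

/-- the terms, multiplied by `t ^ w` -/
noncomputable def tmw (c : X) (w : ℕ) (z : ℂ) (t : ℝ) (x : X → ℕ) : ℂ :=
  (t : ℂ) ^ w * (gt adj E (qz z t) x * ((1 - qz z t ^ (1 + x c))⁻¹) ^ w)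

theorem tmw_norm_le (hb : Function.Injective b) (hadj : ∀ a, adj a (b a)) (s₀ : B)
    (hs₀ : ∀ a, b a ≠ s₀) (h₀ : ∀ a, adj a s₀) (c : X) (w : ℕ) {N : ℕ} (hN : 0 < N) {z : ℂ}
    (hz : IsPrimitiveRoot z N) : ∃ C : ℝ, 0 < C ∧ ∀ t : ℝ, 0 < t → t ≤ 1 → ∀ x : X → ℕ,
      ‖tmw adj E c w z t x‖ ≤
        C * (Real.exp (-t) ^ (∑ a, x a) * ‖qp (qz z t) (∑ a, x a)‖) := by
  obtain ⟨C, hC0, hC⟩ := gt_norm_le adj E b hb hadj s₀ hs₀ h₀ hN hz
  have hn : ‖z‖ = 1 := hz.norm'_eq_one hN.ne'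
  refine ⟨2 ^ w * C, by positivity, fun t ht ht1 x => ?_⟩
  have h1 : tmw adj E c w z t x =
      ((t : ℂ) * (1 - qz z t ^ (1 + x c))⁻¹) ^ w * gt adj E (qz z t) x := by
    unfold tmw
    rw [mul_pow]
    ring
  rw [h1, norm_mul, norm_pow, mul_assoc]
  exact mul_le_mul (pow_le_pow_left₀ (norm_nonneg _) (inv_bound hn ht ht1 _) _)
    (hC t ht ht1 x) (norm_nonneg _) (by positivity)

theorem tmw_bound (hb : Function.Injective b) (hadj : ∀ a, adj a (b a)) (s₀ : B)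
    (hs₀ : ∀ a, b a ≠ s₀) (h₀ : ∀ a, adj a s₀) (c : X) (w : ℕ) {N : ℕ} (hN : 0 < N) {z : ℂ}
    (hz : IsPrimitiveRoot z N) : ∃ bound : (X → ℕ) → ℝ, Summable bound ∧
      ∀ t : ℝ, 0 < t → t ≤ 1 → ∀ x : X → ℕ, ‖tmw adj E c w z t x‖ ≤ bound x := by
  obtain ⟨C, hC0, hC⟩ := tmw_norm_le adj E b hb hadj s₀ hs₀ h₀ c w hN hz
  obtain ⟨C₁, hC₁, hd⟩ := qp_decay hz hN (2 * Fintype.card X)
  have hs : Summable fun k : ℕ => 1 / (1 + (k : ℝ)) ^ 2 := by
    have h1 := (summable_nat_add_iff 1).2 (Real.summable_one_div_nat_pow.2 one_lt_two)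
    refine h1.congr fun k => ?_
    push_cast
    rw [add_comm]
  obtain ⟨h2, -⟩ := pi_real (ι := X) (f := fun _ k => 1 / (1 + (k : ℝ)) ^ 2)
    (fun _ _ => by positivity) fun _ => hs
  refine ⟨_, h2.mul_left (C * C₁), fun t ht ht1 x => ?_⟩
  refine (hC t ht ht1 x).trans ?_
  rw [mul_assoc]
  refine mul_le_mul_of_nonneg_left ((hd t ht ht1 _).trans ?_) hC0.le
  rw [Finset.prod_div_distrib, Finset.prod_const_one, mul_one_div]
  have h3 : ∏ a, (1 + (x a : ℝ)) ^ 2 ≤ (1 + ((∑ a, x a : ℕ) : ℝ)) ^ (2 * Fintype.card X) := by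
    rw [pow_mul, ← Finset.card_univ, ← Finset.prod_const]
    refine Finset.prod_le_prod (fun _ _ => by positivity) fun a _ => ?_
    have h4 : (x a : ℝ) ≤ ((∑ a, x a : ℕ) : ℝ) := by
      exact_mod_cast Finset.single_le_sum (f := x) (fun _ _ => Nat.zero_le _) (mem_univ a)
    gcongr
  exact div_le_div_of_nonneg_left hC₁.le (Finset.prod_pos fun a _ => by positivity) h3

theorem tmw_zero (hb : Function.Injective b) (hadj : ∀ a, adj a (b a)) (s₀ : B)
    (hs₀ : ∀ a, b a ≠ s₀) (h₀ : ∀ a, adj a s₀) [DecidableEq X] (c : X) {w : ℕ} (hw : 1 ≤ w)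
    {N : ℕ} (hN : 2 ≤ N) {z : ℂ} (hz : IsPrimitiveRoot z N) (x : X → ℕ)
    (hx : x ≠ Pi.single c (N - 1)) :
    Tendsto (fun t : ℝ => tmw adj E c w z t x) (𝓝[>] 0) (𝓝 0) := by
  have hN0 : 0 < N := by omega
  have hn : ‖z‖ = 1 := hz.norm'_eq_one hN0.ne'
  have hid : Tendsto (fun t : ℝ => t) (𝓝[>] 0) (𝓝 0) :=
    tendsto_id.mono_left nhdsWithin_le_nhds
  have hev : ∀ᶠ t : ℝ in 𝓝[>] 0, 0 < t ∧ t ≤ 1 := by
    filter_upwards [Ioc_mem_nhdsGT (show (0 : ℝ) < 1 by norm_num)] with t ht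
    exact ⟨ht.1, ht.2⟩
  by_cases hdvd : N ∣ 1 + x c
  · -- the sum of the coordinates is at least `N`
    have hsum : 1 * N ≤ ∑ a, x a := by
      rw [one_mul]
      by_contra hcon
      push Not at hcon
      have h1 : x c ≤ ∑ a, x a :=
        Finset.single_le_sum (f := x) (fun _ _ => Nat.zero_le _) (mem_univ c)
      have h2 : x c = N - 1 := by
        obtain ⟨k, hk⟩ := hdvd
        rcases Nat.eq_zero_or_pos k with h | h
        · subst h
          omega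
        · have : N * 1 ≤ N * k := Nat.mul_le_mul_left _ h
          omega
      have h3 := Finset.add_sum_erase univ x (mem_univ c)
      have h4 : ∑ a ∈ univ.erase c, x a = 0 := by omega
      rw [Finset.sum_eq_zero_iff] at h4
      apply hx
      funext a
      by_cases ha : a = c
      · rw [ha, Pi.single_eq_same, h2]
      · rw [Pi.single_eq_of_ne ha]
        exact h4 a (mem_erase.2 ⟨ha, mem_univ a⟩)
    obtain ⟨C, hC0, hC⟩ := tmw_norm_le adj E b hb hadj s₀ hs₀ h₀ c w hN0 hz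
    obtain ⟨C₁, hC₁, h5⟩ := qp_ge_le hz hN0 1
    have h6 : Tendsto (fun t : ℝ => C * (C₁ * t)) (𝓝[>] 0) (𝓝 0) := by
      simpa using (hid.const_mul C₁).const_mul C
    refine squeeze_zero_norm' ?_ h6
    filter_upwards [hev] with t ht
    refine (hC t ht.1 ht.2 x).trans (mul_le_mul_of_nonneg_left ?_ hC0.le)
    have h7 := h5 t ht.1 ht.2 _ hsum
    rw [pow_one] at h7
    have h8 : Real.exp (-t) ^ (∑ a, x a) ≤ 1 :=
      pow_le_one₀ (Real.exp_pos _).le (Real.exp_le_one_iff.2 (by linarith [ht.1]))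
    calc _ ≤ 1 * ‖qp (qz z t) (∑ a, x a)‖ := mul_le_mul_of_nonneg_right h8 (norm_nonneg _)
      _ ≤ _ := by rw [one_mul]; exact h7
  · obtain ⟨C, hC0, hC⟩ := gt_norm_le adj E b hb hadj s₀ hs₀ h₀ hN0 hz
    obtain ⟨C₁, hC₁, h5⟩ := qp_ge_le hz hN0 0
    have hz1 : 1 - z ^ (1 + x c) ≠ 0 := by
      intro h
      exact hdvd ((hz.pow_eq_one_iff_dvd _).1 (sub_eq_zero.1 h).symm)
    have h6 : Tendsto (fun t : ℝ => ‖(1 - qz z t ^ (1 + x c))⁻¹‖ ^ w) (𝓝[>] 0)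
        (𝓝 (‖(1 - z ^ (1 + x c))⁻¹‖ ^ w)) :=
      ((((qz_tendsto z).pow _).const_sub 1).inv₀ hz1).norm.pow w
    have h7 : Tendsto (fun t : ℝ => t ^ w * (C * C₁) * ‖(1 - qz z t ^ (1 + x c))⁻¹‖ ^ w)
        (𝓝[>] 0) (𝓝 0) := by
      have h8 : Tendsto (fun t : ℝ => t ^ w) (𝓝[>] 0) (𝓝 0) := by
        simpa [zero_pow (by omega : w ≠ 0)] using hid.pow w
      simpa using (h8.mul_const (C * C₁)).mul h6
    refine squeeze_zero_norm' ?_ h7
    filter_upwards [hev] with t ht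
    have h8 := hC t ht.1 ht.2 x
    have h9 := h5 t ht.1 ht.2 (∑ a, x a) (by omega)
    rw [pow_zero, mul_one] at h9
    have h10 : Real.exp (-t) ^ (∑ a, x a) ≤ 1 :=
      pow_le_one₀ (Real.exp_pos _).le (Real.exp_le_one_iff.2 (by linarith [ht.1]))
    have h11 : ‖gt adj E (qz z t) x‖ ≤ C * C₁ := by
      refine h8.trans (mul_le_mul_of_nonneg_left ?_ hC0.le)
      calc _ ≤ 1 * ‖qp (qz z t) (∑ a, x a)‖ := mul_le_mul_of_nonneg_right h10 (norm_nonneg _)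
        _ ≤ _ := by rw [one_mul]; exact h9
    unfold tmw
    rw [norm_mul, norm_mul, norm_pow, norm_pow, Complex.norm_real,
      Real.norm_of_nonneg ht.1.le, mul_assoc]
    have := ht.1
    gcongr

theorem tmw_main [DecidableEq X] (c : X) (hE : ∀ m : ℕ, E (Pi.single c m) = 0)
    {K : ℕ} (hK : (univ.filter fun s => adj c s).card = K + 1) (w : ℕ)
    {N : ℕ} (hN : 2 ≤ N) {z : ℂ} (hz : IsPrimitiveRoot z N) :
    Tendsto (fun t : ℝ => tmw adj E c w z t (Pi.single c (N - 1))) (𝓝[>] 0)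
      (𝓝 (z ^ (N - 1) * (N : ℂ) ^ K * ((N : ℂ)⁻¹) ^ w)) := by
  have hN0 : 0 < N := by omega
  have hn : ‖z‖ = 1 := hz.norm'_eq_one hN0.ne'
  obtain ⟨M, rfl⟩ : ∃ M, N = M + 1 := ⟨N - 1, by omega⟩
  have hqp : qp z M = ((M + 1 : ℕ) : ℂ) := by
    have := hz.prod_one_sub_pow_eq_order
    unfold qp
    rw [this]
    push_cast
    rfl
  have h1 : Tendsto (fun t : ℝ => qz z t ^ M * qp (qz z t) M ^ K) (𝓝[>] 0)
      (𝓝 (z ^ M * ((M + 1 : ℕ) : ℂ) ^ K)) := by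
    rw [← hqp]
    exact ((qz_tendsto z).pow M).mul ((((qp_cont M).tendsto z).comp (qz_tendsto z)).pow K)
  -- the factor with the pole
  have h2 : Tendsto (fun t : ℝ => (t : ℂ) * (1 - qz z t ^ (1 + M))⁻¹) (𝓝[>] 0)
      (𝓝 (((M + 1 : ℕ) : ℂ)⁻¹)) := by
    have h3 : ∀ t : ℝ, (t : ℂ) * (1 - qz z t ^ (1 + M))⁻¹ =
        ((((1 - Real.exp (-t) ^ (M + 1)) / t)⁻¹ : ℝ) : ℂ) := by
      intro t
      have h4 : qz z t ^ (1 + M) = ((Real.exp (-t) ^ (M + 1) : ℝ) : ℂ) := by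
        unfold qz
        rw [mul_pow, add_comm 1 M, hz.pow_eq_one, one_mul]
        push_cast
        rfl
      rw [h4, inv_div]
      push_cast
      rw [div_eq_mul_inv]
    simp_rw [h3]
    have h5 : HasDerivAt (fun t : ℝ => 1 - Real.exp (-t) ^ (M + 1)) ((M + 1 : ℕ) : ℝ) 0 := by
      have h6 : HasDerivAt (fun t : ℝ => Real.exp (-t)) (-1) 0 := by
        have := (hasDerivAt_neg (0 : ℝ)).exp
        simpa using this
      have h7 := (h6.pow (M + 1)).const_sub 1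
      simpa using h7
    have h8 := h5.tendsto_slope_zero_right
    have h9 : Tendsto (fun t : ℝ => (1 - Real.exp (-t) ^ (M + 1)) / t) (𝓝[>] 0)
        (𝓝 ((M + 1 : ℕ) : ℝ)) := by
      refine h8.congr fun t => ?_
      simp [div_eq_inv_mul]
    have h10 : ((M + 1 : ℕ) : ℝ) ≠ 0 := by positivity
    have e : (((((M + 1 : ℕ) : ℝ)⁻¹ : ℝ)) : ℂ) = ((M + 1 : ℕ) : ℂ)⁻¹ := by
      push_cast
      rfl
    rw [← e]
    exact (Complex.continuous_ofReal.tendsto _).comp (h9.inv₀ h10)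
  have h3 := (h1.mul (h2.pow w))
  refine h3.congr' ?_
  filter_upwards [self_mem_nhdsWithin] with t ht
  have ht' : 0 < t := ht
  have hq : ‖qz z t‖ < 1 := by
    rw [norm_qz hn]
    exact Real.exp_lt_one_iff.2 (by linarith)
  unfold tmw
  rw [Nat.add_sub_cancel, gt_single adj E c hE M hK (qp_ne_zero hq M), Pi.single_eq_same, mul_pow]
  ring

theorem lim_root (hb : Function.Injective b) (hadj : ∀ a, adj a (b a)) (s₀ : B)
    (hs₀ : ∀ a, b a ≠ s₀) (h₀ : ∀ a, adj a s₀) [DecidableEq X] (c : X)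
    (hE : ∀ m : ℕ, E (Pi.single c m) = 0)
    {K : ℕ} (hK : (univ.filter fun s => adj c s).card = K + 1) {w : ℕ} (hw : 1 ≤ w)
    {N : ℕ} (hN : 2 ≤ N) {z : ℂ} (hz : IsPrimitiveRoot z N) :
    Tendsto (fun t : ℝ => t ^ w * ‖∑' x : X → ℕ, gt adj E (qz z t) x *
      ((1 - qz z t ^ (1 + x c))⁻¹) ^ w‖) (𝓝[>] 0) (𝓝 ((N : ℝ) ^ K / (N : ℝ) ^ w)) := by
  have hN0 : 0 < N := by omega
  have hn : ‖z‖ = 1 := hz.norm'_eq_one hN0.ne'
  obtain ⟨bound, hs, hbd⟩ := tmw_bound adj E b hb hadj s₀ hs₀ h₀ c w hN0 hz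
  set L : ℂ := z ^ (N - 1) * (N : ℂ) ^ K * ((N : ℂ)⁻¹) ^ w with hL
  have h1 : Tendsto (fun t : ℝ => ∑' x : X → ℕ, tmw adj E c w z t x) (𝓝[>] 0)
      (𝓝 (∑' x : X → ℕ, if x = Pi.single c (N - 1) then L else 0)) := by
    refine tendsto_tsum_of_dominated_convergence hs (fun x => ?_) ?_
    · by_cases hx : x = Pi.single c (N - 1)
      · rw [if_pos hx, hx]
        exact tmw_main adj E c hE hK w hN hz
      · rw [if_neg hx]
        exact tmw_zero adj E b hb hadj s₀ hs₀ h₀ c hw hN hz x hx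
    · filter_upwards [Ioc_mem_nhdsGT (show (0 : ℝ) < 1 by norm_num)] with t ht x
      exact hbd t ht.1 ht.2 x
  rw [tsum_ite_eq] at h1
  have h2 : ‖L‖ = (N : ℝ) ^ K / (N : ℝ) ^ w := by
    rw [hL, norm_mul, norm_mul, norm_pow, hn, one_pow, one_mul, norm_pow, norm_pow, norm_inv,
      Complex.norm_natCast, inv_pow, div_eq_mul_inv]
  rw [← h2]
  refine h1.norm.congr' ?_
  filter_upwards [self_mem_nhdsWithin] with t ht
  have ht' : 0 < t := ht
  unfold tmw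
  rw [tsum_mul_left, norm_mul, norm_pow, Complex.norm_real, Real.norm_of_nonneg ht'.le]

end

end Pool.Agent.H25.PP
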