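import Pool.Agent.H25.PP.PMain

/-!
# PP PFin: graphs with pendant paths of length two (MP_b63d87_nt, helper25)
-/

set_option autoImplicit false

namespace Pool.Agent.H25.PP

open Finset UpperHalfPlane Filter Topology H93GS

section

variable {r : ℕ} (Γ : SimpleGraph (Fin r)) [DecidableRel Γ.Adj] (S : Finset (Fin r))

/-- the sum over the edges outside `S` and `P` -/
def E0 (P : Finset (AA S)) (x : XX P → ℕ) : ℕ :=
  ∑ a, ∑ a', if a.1.1 < a'.1.1 ∧ Γ.Adj a.1.1 a'.1.1 then x a * x a' else 0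

theorem EA_split (P : Finset (AA S)) (c : AA S) (hc : c ∉ P)
    (h : ∀ p ∈ P, ∀ a : AA S, Γ.Adj p.1 a.1 ↔ a = c) (n : AA S → ℕ) :
    EA Γ S n = E0 Γ S P (fun a => n a.1) + n c * ∑ p ∈ P, n p := by
  classical
  set f : AA S → AA S → ℕ := fun a a' => if a.1 < a'.1 ∧ Γ.Adj a.1 a'.1 then n a * n a' else 0
    with hf
  have h0 : EA Γ S n = ∑ a, ∑ a', f a a' := rfl
  have h1 : ∀ g : AA S → ℕ, ∑ a, g a = (∑ a : XX P, g a.1) + ∑ p ∈ P, g p := by
    intro g
    rw [← Finset.sum_sdiff (subset_univ P)]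
    congr 1
    exact Finset.sum_subtype (univ \ P) (by simp) g
  have h2 : ∀ p ∈ P, ∑ a : XX P, f a.1 p = f c p := by
    intro p hp
    rw [Finset.sum_eq_single (⟨c, hc⟩ : XX P)]
    · intro a _ ha
      refine if_neg fun h3 => ha (Subtype.ext ?_)
      exact (h p hp a.1).1 h3.2.symm
    · intro h3
      exact absurd (mem_univ _) h3
  have h3 : ∀ p ∈ P, ∑ a, f p a = f p c := by
    intro p hp
    rw [Finset.sum_eq_single c]
    · intro a _ ha
      exact if_neg fun h3 => ha ((h p hp a).1 h3.2)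
    · intro h3
      exact absurd (mem_univ _) h3
  have h4 : ∀ p ∈ P, f c p + f p c = n c * n p := by
    intro p hp
    have hadj : Γ.Adj p.1 c.1 := (h p hp c).2 rfl
    have hne : c.1 ≠ p.1 := fun e => hc (Subtype.ext e ▸ hp)
    rcases lt_or_gt_of_ne hne with h5 | h5
    · simp only [hf]
      rw [if_pos ⟨h5, hadj.symm⟩, if_neg (fun h => absurd h.1 h5.asymm), add_zero]
    · simp only [hf]
      rw [if_neg (fun h => absurd h.1 h5.asymm), if_pos ⟨h5, hadj⟩, zero_add, mul_comm]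
  rw [h0, h1]
  have h5 : ∑ a : XX P, ∑ a', f a.1 a' = E0 Γ S P (fun a => n a.1) +
      ∑ a : XX P, ∑ p ∈ P, f a.1 p := by
    unfold E0
    rw [← Finset.sum_add_distrib]
    exact Finset.sum_congr rfl fun a _ => h1 _
  rw [h5, Finset.sum_comm, Finset.sum_congr rfl h2, Finset.sum_congr rfl h3, add_assoc,
    ← Finset.sum_add_distrib, Finset.sum_congr rfl h4, Finset.mul_sum]

theorem E0_single (P : Finset (AA S)) (c : XX P) (m : ℕ) : E0 Γ S P (Pi.single c m) = 0 := by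
  unfold E0
  refine Finset.sum_eq_zero fun a _ => Finset.sum_eq_zero fun a' _ => ?_
  split_ifs with h
  · by_cases ha : a = c
    · by_cases ha' : a' = c
      · rw [ha, ha'] at h
        exact absurd h.1 (lt_irrefl _)
      · rw [Pi.single_eq_of_ne ha', mul_zero]
    · rw [Pi.single_eq_of_ne ha, zero_mul]
  · rfl

end

theorem pendant {r : ℕ} (Γ : SimpleGraph (Fin r)) [DecidableRel Γ.Adj]
    (S : Finset (Fin r)) (hS : ∀ i ∈ S, ∀ j ∈ S, ¬ Γ.Adj i j)
    (b : Fin r → Fin r) (hb : ∀ a, a ∉ S → b a ∈ S ∧ Γ.Adj a (b a))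
    (hbi : ∀ a a', a ∉ S → a' ∉ S → b a = b a' → a = a')
    (P : Finset (Fin r)) (hP : P.Nonempty) (hPS : ∀ p ∈ P, p ∉ S)
    (c : Fin r) (hcS : c ∉ S) (hcP : c ∉ P)
    (hPadj : ∀ p ∈ P, ∀ v, Γ.Adj p v ↔ v = c ∨ v = b p)
    (hleaf : ∀ p ∈ P, ∀ v, Γ.Adj (b p) v → v = p)
    (s₀ : Fin r) (hs₀ : s₀ ∈ S) (hs₀b : ∀ a, a ∉ S → b a ≠ s₀)
    (hs₀a : ∀ a, a ∉ S → a ∉ P → Γ.Adj a s₀) (a k : ℝ) :
    ¬ IsModularForm k fun τ : ℍ => Complex.exp (2 * Real.pi * Complex.I * a * (τ : ℂ)) *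
      graphSeries Γ (Complex.exp (2 * Real.pi * Complex.I * (τ : ℂ))) := by
  classical
  let b' : AA S → BB S := fun x => ⟨b x.1, (hb x.1 x.2).1⟩
  have hb' : Function.Injective b' := fun x y hxy =>
    Subtype.ext (hbi x.1 y.1 x.2 y.2 (congrArg Subtype.val hxy))
  have hadj : ∀ x, adjS Γ S x (b' x) := fun x => (hb x.1 x.2).2
  let c' : AA S := ⟨c, hcS⟩
  let P' : Finset (AA S) := univ.filter fun x => x.1 ∈ P
  have hP' : ∀ x : AA S, x ∈ P' ↔ x.1 ∈ P := fun x => by simp [P']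
  have hc' : c' ∉ P' := fun h => hcP ((hP' c').1 h)
  have h1 : ∀ p ∈ P', ∀ s, adjS Γ S p s ↔ s = b' p := by
    intro p hp s
    have h3 := hPadj p.1 ((hP' p).1 hp) s.1
    constructor
    · intro h4
      rcases h3.1 h4 with h5 | h5
      · exact absurd (h5 ▸ s.2) hcS
      · exact Subtype.ext h5
    · rintro rfl
      exact hadj p
  have h2 : ∀ p ∈ P', ∀ x, adjS Γ S x (b' p) → x = p := by
    intro p hp x h3
    exact Subtype.ext (hleaf p.1 ((hP' p).1 hp) x.1 (SimpleGraph.Adj.symm h3))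
  have hE : ∀ n : AA S → ℕ, EA Γ S n = E0 Γ S P' (fun x => n x.1) + n c' * ∑ p ∈ P', n p := by
    refine EA_split Γ S P' c' hc' fun p hp x => ?_
    rw [hPadj p.1 ((hP' p).1 hp) x.1]
    constructor
    · rintro (h3 | h3)
      · exact Subtype.ext h3
      · exact absurd (h3 ▸ (hb p.1 p.2).1) x.2
    · rintro rfl
      exact Or.inl rfl
  have hw : 1 ≤ P'.card := by
    obtain ⟨p, hp⟩ := hP
    exact card_pos.2 ⟨⟨p, hPS p hp⟩, (hP' _).2 hp⟩
  let c'' : XX P' := ⟨c', hc'⟩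
  let b'' : XX P' → YY P' b' := fun x => ⟨b' x.1, by
    intro h
    obtain ⟨p, hp, h3⟩ := mem_image.1 h
    exact x.2 (hb' h3 ▸ hp)⟩
  have hb'' : Function.Injective b'' := fun x y hxy =>
    Subtype.ext (hb' (congrArg Subtype.val hxy))
  let s' : YY P' b' := ⟨⟨s₀, hs₀⟩, by
    intro h
    obtain ⟨p, hp, h3⟩ := mem_image.1 h
    exact hs₀b p.1 p.2 (congrArg Subtype.val h3)⟩
  have hs'b : ∀ x, b'' x ≠ s' := by
    intro x h
    exact hs₀b x.1.1 x.1.2 (congrArg (fun y : YY P' b' => y.1.1) h)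
  have hs'a : ∀ x : XX P', adjX (adjS Γ S) P' b' x s' := fun x =>
    hs₀a x.1.1 x.1.2 fun h => x.2 ((hP' x.1).2 h)
  have hcard : 1 < (univ.filter fun s => adjX (adjS Γ S) P' b' c'' s).card := by
    rw [one_lt_card]
    refine ⟨b'' c'', mem_filter.2 ⟨mem_univ _, hadj c'⟩, s', mem_filter.2 ⟨mem_univ _, hs'a c''⟩,
      hs'b c''⟩
  obtain ⟨K, hK⟩ : ∃ K, (univ.filter fun s => adjX (adjS Γ S) P' b' c'' s).card = K + 1 :=
    ⟨_, (Nat.sub_add_cancel (by omega)).symm⟩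
  refine principle Γ S hS (K := K) (w := P'.card) (by omega) (fun N z hN hz => ?_) a k
  have h3 := lim_root (adjX (adjS Γ S) P' b') (E0 Γ S P') b'' hb'' (fun x => hadj x.1) s' hs'b
    hs'a c'' (E0_single Γ S P' c'') hK hw hN hz
  have hn : ‖z‖ = 1 := hz.norm'_eq_one (by omega)
  refine h3.congr' ?_
  filter_upwards [self_mem_nhdsWithin] with t ht
  have ht' : 0 < t := ht
  have hq : ‖qz z t‖ < 1 := by
    rw [norm_qz hn]
    exact Real.exp_lt_one_iff.2 (by linarith)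
  have h4 := red (adjS Γ S) P' b' (EA Γ S) (E0 Γ S P') c' hc' h1 h2 hE hq (gt_summable Γ S hq)
  unfold GG
  rw [h4]

end Pool.Agent.H25.PP
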