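import Pool.Agent.H93.GS.Euler
import Pool.Agent.H93.GS.PiSum

/-!
# PP Red: summation over the pendant paths (MP_b63d87_nt, helper25)
-/

set_option autoImplicit false

namespace Pool.Agent.H25.PP

open Finset H93GS

/-- the indices outside `P` -/
abbrev XX {A : Type} (P : Finset A) : Type := {a : A // a ∉ P}

/-- the indices which are not partners of `P` -/
abbrev YY {A B : Type} [DecidableEq B] (P : Finset A) (b : A → B) : Type :=
  {s : B // s ∉ P.image b}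

section

variable {A B : Type} [Fintype A] [Fintype B] [DecidableEq A] [DecidableEq B]
  (adj : A → B → Prop) [∀ a s, Decidable (adj a s)] (P : Finset A) (b : A → B)

/-- the adjacency of the remaining indices -/
def adjX : XX P → YY P b → Prop := fun a s => adj a.1 s.1

instance (a : XX P) (s : YY P b) : Decidable (adjX adj P b a s) :=
  inferInstanceAs (Decidable (adj a.1 s.1))

omit [Fintype B] in
theorem mm_out (h1 : ∀ p ∈ P, ∀ s, adj p s ↔ s = b p) (n : A → ℕ) (s : YY P b) :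
    mm adj n s.1 = mm (adjX adj P b) (fun a => n a.1) s := by
  unfold mm
  rw [← Finset.sum_sdiff (subset_univ P)]
  have h2 : ∑ a ∈ P, (if adj a s.1 then n a else 0) = 0 := by
    refine Finset.sum_eq_zero fun p hp => if_neg fun h => ?_
    exact s.2 (mem_image.2 ⟨p, hp, ((h1 p hp s.1).1 h).symm⟩)
  rw [h2, add_zero]
  exact Finset.sum_subtype (univ \ P) (by simp) fun a => if adj a s.1 then n a else 0

omit [Fintype B] [DecidableEq A] [DecidableEq B] in
theorem mm_in (h1 : ∀ p ∈ P, ∀ s, adj p s ↔ s = b p)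
    (h2 : ∀ p ∈ P, ∀ a, adj a (b p) → a = p) (n : A → ℕ) {p : A} (hp : p ∈ P) :
    mm adj n (b p) = n p := by
  unfold mm
  rw [Finset.sum_eq_single p]
  · rw [if_pos ((h1 p hp _).2 rfl)]
  · intro a _ ha
    rw [if_neg fun h => ha (h2 p hp a h)]
  · intro h
    exact absurd (mem_univ p) h

theorem red_point (E : (A → ℕ) → ℕ) (E₀ : (XX P → ℕ) → ℕ) (c : A)
    (h1 : ∀ p ∈ P, ∀ s, adj p s ↔ s = b p) (h2 : ∀ p ∈ P, ∀ a, adj a (b p) → a = p)
    (hE : ∀ n : A → ℕ, E n = E₀ (fun a => n a.1) + n c * ∑ p ∈ P, n p)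
    {q : ℂ} (hq : ‖q‖ < 1) (n : A → ℕ) :
    gt adj E q n = gt (adjX adj P b) E₀ q (fun a => n a.1) *
      ∏ p : {a // a ∈ P}, (q ^ (1 + n c)) ^ n p.1 := by
  have hinj : ∀ p ∈ P, ∀ p' ∈ P, b p = b p' → p = p' := by
    intro p hp p' hp' h
    exact h2 p' hp' p (h ▸ (h1 p hp (b p)).2 rfl)
  unfold gt
  have e1 : ∏ s, qp q (mm adj n s) =
      (∏ s : YY P b, qp q (mm (adjX adj P b) (fun a => n a.1) s)) * ∏ p ∈ P, qp q (n p) := by
    rw [← Finset.prod_sdiff (subset_univ (P.image b)), Finset.prod_image hinj]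
    congr 1
    · rw [Finset.prod_subtype (univ \ P.image b) (p := fun s => s ∉ P.image b) (by simp)
        fun s => qp q (mm adj n s)]
      exact Finset.prod_congr rfl fun s _ => by rw [mm_out adj P b h1 n s]
    · exact Finset.prod_congr rfl fun p hp => by rw [mm_in adj P b h1 h2 n hp]
  have e2 : ∏ a, qp q (n a) = (∏ a : XX P, qp q (n a.1)) * ∏ p ∈ P, qp q (n p) := by
    rw [← Finset.prod_sdiff (subset_univ P)]
    congr 1
    exact Finset.prod_subtype (univ \ P) (by simp) fun a => qp q (n a)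
  have e3 : ∑ a, n a = (∑ a : XX P, n a.1) + ∑ p ∈ P, n p := by
    rw [← Finset.sum_sdiff (subset_univ P)]
    congr 1
    exact Finset.sum_subtype (univ \ P) (by simp) fun a => n a
  have e4 : ∏ p : {a // a ∈ P}, (q ^ (1 + n c)) ^ n p.1 = q ^ ((1 + n c) * ∑ p ∈ P, n p) := by
    rw [Finset.prod_pow_eq_pow_sum, ← pow_mul]
    congr 2
    exact (Finset.sum_coe_sort P fun p => n p)
  have e5 : E n + ∑ a, n a = (E₀ (fun a => n a.1) + ∑ a : XX P, n a.1) +
      (1 + n c) * ∑ p ∈ P, n p := by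
    rw [hE, e3]
    ring
  have h3 : ∏ p ∈ P, qp q (n p) ≠ 0 := Finset.prod_ne_zero_iff.2 fun p _ => qp_ne_zero hq _
  have h4 : ∏ a : XX P, qp q (n a.1) ≠ 0 :=
    Finset.prod_ne_zero_iff.2 fun p _ => qp_ne_zero hq _
  rw [e1, e2, e4, e5, pow_add]
  field_simp

theorem red (E : (A → ℕ) → ℕ) (E₀ : (XX P → ℕ) → ℕ) (c : A) (hc : c ∉ P)
    (h1 : ∀ p ∈ P, ∀ s, adj p s ↔ s = b p) (h2 : ∀ p ∈ P, ∀ a, adj a (b p) → a = p)
    (hE : ∀ n : A → ℕ, E n = E₀ (fun a => n a.1) + n c * ∑ p ∈ P, n p)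
    {q : ℂ} (hq : ‖q‖ < 1) (hs : Summable fun n : A → ℕ => ‖gt adj E q n‖) :
    ∑' n : A → ℕ, gt adj E q n = ∑' x : XX P → ℕ, gt (adjX adj P b) E₀ q x *
      ((1 - q ^ (1 + x ⟨c, hc⟩))⁻¹) ^ P.card := by
  let e : (A → ℕ) ≃ ({a // a ∈ P} → ℕ) × (XX P → ℕ) :=
    Equiv.piEquivPiSubtypeProd (fun a => a ∈ P) (fun _ => ℕ)
  let e' : (XX P → ℕ) × ({a // a ∈ P} → ℕ) ≃ (A → ℕ) := (Equiv.prodComm _ _).trans e.symm
  have hx : ∀ (u : (XX P → ℕ) × ({a // a ∈ P} → ℕ)) (a : XX P), e' u a.1 = u.1 a := by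
    intro u a
    simp [e', e, Equiv.piEquivPiSubtypeProd, a.2]
  have hy : ∀ (u : (XX P → ℕ) × ({a // a ∈ P} → ℕ)) (a : {a // a ∈ P}), e' u a.1 = u.2 a := by
    intro u a
    simp [e', e, Equiv.piEquivPiSubtypeProd, a.2]
  have key : ∀ u : (XX P → ℕ) × ({a // a ∈ P} → ℕ), gt adj E q (e' u) =
      gt (adjX adj P b) E₀ q u.1 * ∏ p : {a // a ∈ P}, (q ^ (1 + u.1 ⟨c, hc⟩)) ^ u.2 p := by
    intro u
    rw [red_point adj P b E E₀ c h1 h2 hE hq]
    have h3 : (fun a : XX P => e' u a.1) = u.1 := funext fun a => hx u a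
    rw [h3, ← hx u ⟨c, hc⟩]
    congr 1
    exact Finset.prod_congr rfl fun p _ => by rw [hy]
  have hs' : Summable fun u : (XX P → ℕ) × ({a // a ∈ P} → ℕ) => gt adj E q (e' u) :=
    (e'.summable_iff.2 hs).of_norm
  rw [← e'.tsum_eq, hs'.tsum_prod]
  refine tsum_congr fun x => ?_
  simp_rw [key]
  rw [tsum_mul_left]
  congr 1
  have hn := pow_norm_lt_one hq (x ⟨c, hc⟩)
  rw [pi_tsum (f := fun _ k => (q ^ (1 + x ⟨c, hc⟩)) ^ k) fun _ => by
    simp_rw [norm_pow (q ^ (1 + x ⟨c, hc⟩))]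
    exact summable_geometric_of_lt_one (norm_nonneg _) hn]
  rw [Finset.prod_const, Finset.card_univ, Fintype.card_coe, tsum_geometric_of_norm_lt_one hn]

end

end Pool.Agent.H25.PP
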