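import Pool.Agent.H93.GS.Main
import Pool.Agent.H25.PP.LimRoot
import Pool.Agent.H25.PP.Red
import Pool.Agent.H25.PP.Infty

/-!
# PP PMain: pendant paths (MP_b63d87_nt, helper25)
-/

set_option autoImplicit false

namespace Pool.Agent.H25.PP

open Finset UpperHalfPlane Filter Topology H93GS
open scoped MatrixGroups Manifold

section

variable {r : ℕ} (Γ : SimpleGraph (Fin r)) [DecidableRel Γ.Adj] (S : Finset (Fin r))

/-- the modular form `q ^ a * (q)_∞ ^ |S| * H` up to a power of `q` -/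
theorem exists_F (hS : ∀ i ∈ S, ∀ j ∈ S, ¬ Γ.Adj i j) (a k : ℝ)
    (hf : IsModularForm k fun τ : ℍ => Complex.exp (2 * Real.pi * Complex.I * a * (τ : ℂ)) *
      graphSeries Γ (Complex.exp (2 * Real.pi * Complex.I * (τ : ℂ)))) :
    ∃ (F : ℍ → ℂ) (k' a' : ℝ) (Δ : Subgroup SL(2, ℤ)), Δ.FiniteIndex ∧
      (∀ γ ∈ Δ, ∀ τ : ℍ, ‖F (γ • τ)‖ = ‖denom γ τ‖ ^ k' * ‖F τ‖) ∧
      ∀ τ : ℍ, ‖F τ‖ = Real.exp (-(2 * Real.pi * a' * τ.im)) * ‖GG Γ S (qe τ)‖ := by
  obtain ⟨hd, ⟨Δ, v, hΔ, hv, htr⟩, hgr⟩ := hf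
  set f : ℍ → ℂ := fun τ : ℍ => Complex.exp (2 * Real.pi * Complex.I * a * (τ : ℂ)) *
      graphSeries Γ (Complex.exp (2 * Real.pi * Complex.I * (τ : ℂ))) with hfdef
  refine ⟨fun τ => f τ * ModularForm.eta (τ : ℂ) ^ S.card, k + S.card / 2, a + S.card / 24, Δ, hΔ,
    ?_, ?_⟩
  · intro γ hγ τ
    have hd0 : 0 < ‖denom γ τ‖ := norm_pos_iff.2 (denom_ne_zero _ τ)
    have h5 : ‖f (γ • τ)‖ = ‖denom γ τ‖ ^ k * ‖f τ‖ := by
      rw [htr γ hγ τ, norm_mul, norm_mul, hv γ hγ, one_mul, Complex.norm_cpow_real]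
    simp only [norm_mul, norm_pow]
    rw [h5, norm_eta_smul, mul_pow, ← Real.rpow_natCast (‖denom γ τ‖ ^ _),
      ← Real.rpow_mul hd0.le, Real.rpow_add hd0]
    have h6 : (1 / 2 : ℝ) * (S.card : ℝ) = S.card / 2 := by ring
    rw [h6]
    ring
  · intro τ
    have h3 : f τ * ModularForm.eta (τ : ℂ) ^ S.card =
        Complex.exp (2 * Real.pi * Complex.I * ((a + S.card / 24 : ℝ) : ℂ) * (τ : ℂ)) *
          GG Γ S (qe τ) := by
      have h4 : graphSeries Γ (qe τ) * qinf (qe τ) ^ S.card = GG Γ S (qe τ) :=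
        split_main Γ S hS (norm_qe_lt τ)
      rw [← h4]
      simp only [hfdef]
      rw [eta_eq, mul_pow, ← Complex.exp_nat_mul]
      have h5 : Complex.exp (2 * Real.pi * Complex.I * ((a + S.card / 24 : ℝ) : ℂ) * (τ : ℂ)) =
          Complex.exp (2 * Real.pi * Complex.I * a * (τ : ℂ)) *
            Complex.exp (S.card * (2 * Real.pi * Complex.I * (τ : ℂ) / 24)) := by
        rw [← Complex.exp_add]
        congr 1
        push_cast
        ring
      rw [h5]
      unfold qe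
      ring
    change ‖f τ * ModularForm.eta (τ : ℂ) ^ S.card‖ = _
    rw [h3, norm_mul, Complex.norm_exp]
    congr 2
    have h6 : (2 * Real.pi * Complex.I * ((a + S.card / 24 : ℝ) : ℂ) * (τ : ℂ) : ℂ) =
        ((2 * Real.pi * (a + S.card / 24) : ℝ) : ℂ) * (Complex.I * (τ : ℂ)) := by
      push_cast
      ring
    rw [h6, Complex.re_ofReal_mul]
    simp

/-- The general principle: if `G` has the exact growth `t ^ (-w)` with the constant `N ^ K / N ^ w`
at `exp (2 π i / N)` for all `N ≥ 2`, then `q ^ a * H` is not modular. -/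
theorem principle (hS : ∀ i ∈ S, ∀ j ∈ S, ¬ Γ.Adj i j) {K w : ℕ} (hK : 1 ≤ K)
    (hlim : ∀ (N : ℕ) (z : ℂ), 2 ≤ N → IsPrimitiveRoot z N →
      Tendsto (fun t : ℝ => t ^ w * ‖GG Γ S (qz z t)‖) (𝓝[>] 0)
        (𝓝 ((N : ℝ) ^ K / (N : ℝ) ^ w))) (a k : ℝ) :
    ¬ IsModularForm k fun τ : ℍ => Complex.exp (2 * Real.pi * Complex.I * a * (τ : ℂ)) *
      graphSeries Γ (Complex.exp (2 * Real.pi * Complex.I * (τ : ℂ))) := by
  intro hf
  obtain ⟨F, k', a', Δ, hΔ, hmod, hFG⟩ := exists_F Γ S hS a k hf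
  obtain ⟨M, hM, hMΔ⟩ := exists_period Δ hΔ ModularGroup.S
  have hpi := Real.pi_pos
  -- the behaviour at infinity
  have hinf : Tendsto (fun q : ℂ => ‖GG Γ S q‖) (𝓝 0) (𝓝 1) := by
    have := (gt_tendsto (adjS Γ S) (EA Γ S) (by simp [EA])).norm
    rwa [norm_one] at this
  -- for every period `N ≥ 2`
  have key : ∀ N : ℕ, 2 ≤ N → ModularGroup.S * ModularGroup.T ^ N * ModularGroup.S⁻¹ ∈ Δ →
      (2 * Real.pi) ^ w = (N : ℝ) ^ K := by
    intro N hN hNΔ
    have hN0 : 0 < N := by omega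
    have hN' : (0 : ℝ) < N := by exact_mod_cast hN0
    set z : ℂ := Complex.exp (2 * Real.pi * Complex.I * ((1 / N : ℝ) : ℂ)) with hz
    have hzp : IsPrimitiveRoot z N := by
      have := Complex.isPrimitiveRoot_exp N hN0.ne'
      convert this using 2
      push_cast
      ring
    -- the points
    have hpt : ∀ x y : ℝ, 0 < y → ∃ τ : ℍ, τ.re = x ∧ τ.im = y := fun x y hy =>
      ⟨⟨⟨x, y⟩, hy⟩, rfl, rfl⟩
    -- the identity
    have hid : ∀ y : ℝ, 0 < y → ∃ u : ℍ, u.im = y / N ^ 2 ∧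
        Real.exp (-(2 * Real.pi * a' * y⁻¹)) * ‖GG Γ S (qz z (2 * Real.pi * y⁻¹))‖ =
        (N * y⁻¹) ^ (-k') * (Real.exp (-(2 * Real.pi * a' * (y / N ^ 2))) *
          ‖GG Γ S (qe u)‖) := by
      intro y hy
      obtain ⟨p, hp1, hp2⟩ := hpt (1 / N) y⁻¹ (inv_pos.2 hy)
      obtain ⟨u, hu1, hu2⟩ := hpt (-(1 / N)) (y / N ^ 2) (by positivity)
      refine ⟨u, hu2, ?_⟩
      have h1 := cusp_one hmod hN0 hNΔ p u hp1 hu1 (by
        rw [hu2, hp2]
        field_simp)
      rw [hFG, hFG, qe_rat (x := 1 / N) hp1, hp2, hu2] at h1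
      exact h1
    -- both sides for `y → ∞`
    have h1 : Tendsto (fun y : ℝ => 2 * Real.pi * y⁻¹) atTop (𝓝[>] 0) := by
      refine tendsto_nhdsWithin_iff.2 ⟨?_, ?_⟩
      · simpa using tendsto_inv_atTop_zero.const_mul (2 * Real.pi)
      · filter_upwards [eventually_gt_atTop 0] with y hy
        exact Set.mem_Ioi.2 (by positivity)
    have h2 := (hlim N z hN hzp).comp h1
    have h3 : Tendsto (fun y : ℝ => Real.exp (-(2 * Real.pi * a' * y⁻¹))) atTop (𝓝 1) := by
      have h4 : Tendsto (fun y : ℝ => -(2 * Real.pi * a' * y⁻¹)) atTop (𝓝 0) := by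
        simpa using (tendsto_inv_atTop_zero.const_mul (2 * Real.pi * a')).neg
      have := (Real.continuous_exp.tendsto 0).comp h4
      rwa [Real.exp_zero] at this
    have h4 := h2.mul h3
    rw [mul_one] at h4
    -- the function `‖G‖` at the points `u`
    choose! u hu hueq using hid
    have h5 : Tendsto (fun y : ℝ => ‖GG Γ S (qe (u y))‖) atTop (𝓝 1) := by
      refine hinf.comp ?_
      rw [tendsto_zero_iff_norm_tendsto_zero]
      have h6 : Tendsto (fun y : ℝ => Real.exp (-((2 * Real.pi / N ^ 2) * y))) atTop (𝓝 0) := by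
        refine Real.tendsto_exp_neg_atTop_nhds_zero.comp ?_
        exact tendsto_id.const_mul_atTop (by positivity)
      refine h6.congr' ?_
      filter_upwards [eventually_gt_atTop 0] with y hy
      rw [norm_qe, hu y hy]
      congr 1
      field_simp
    have h5' : Tendsto (fun y : ℝ => ‖GG Γ S (qe (u y))‖⁻¹) atTop (𝓝 1) := by
      simpa using h5.inv₀ one_ne_zero
    have h6 := h4.mul h5'
    rw [mul_one] at h6
    set L : ℝ := (N : ℝ) ^ K / (N : ℝ) ^ w with hL
    have hL0 : 0 < L := by positivity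
    -- simplify
    set c : ℝ := (2 * Real.pi) ^ w * (N : ℝ) ^ (-k') with hc
    have hc0 : 0 < c := by
      have := Real.rpow_pos_of_pos hN' (-k')
      positivity
    have h7 : Tendsto (fun y : ℝ => c * (Real.exp (-(2 * Real.pi * a' / N ^ 2) * y) *
        y ^ (k' - w))) atTop (𝓝 L) := by
      refine h6.congr' ?_
      filter_upwards [eventually_gt_atTop 0, h5.eventually (lt_mem_nhds one_half_lt_one)] with y hy
        h8
      have hy' : 0 < y⁻¹ := inv_pos.2 hy
      have h9 : ‖GG Γ S (qe (u y))‖ ≠ 0 := by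
        have h10 : (1 / 2 : ℝ) < ‖GG Γ S (qe (u y))‖ := h8
        linarith
      have h10 := hueq y hy
      have h11 : ((N : ℝ) * y⁻¹) ^ (-k') = (N : ℝ) ^ (-k') * y ^ k' := by
        rw [Real.mul_rpow hN'.le hy'.le, Real.inv_rpow hy.le, Real.rpow_neg hy.le, inv_inv]
      have h12 : y ^ (k' - w) = y ^ k' * (y ^ w)⁻¹ := by
        rw [Real.rpow_sub hy, Real.rpow_natCast, div_eq_mul_inv]
      have h13 : -(2 * Real.pi * a' / N ^ 2) * y = -(2 * Real.pi * a' * (y / N ^ 2)) := by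
        field_simp
      simp only [Function.comp]
      rw [h12, h13, hc]
      calc (2 * Real.pi * y⁻¹) ^ w * ‖GG Γ S (qz z (2 * Real.pi * y⁻¹))‖ *
            Real.exp (-(2 * Real.pi * a' * y⁻¹)) * ‖GG Γ S (qe (u y))‖⁻¹
          = (2 * Real.pi * y⁻¹) ^ w * (Real.exp (-(2 * Real.pi * a' * y⁻¹)) *
            ‖GG Γ S (qz z (2 * Real.pi * y⁻¹))‖) * ‖GG Γ S (qe (u y))‖⁻¹ := by ring
        _ = (2 * Real.pi * y⁻¹) ^ w * ((N : ℝ) ^ (-k') * y ^ k' *
            Real.exp (-(2 * Real.pi * a' * (y / N ^ 2)))) *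
            (‖GG Γ S (qe (u y))‖ * ‖GG Γ S (qe (u y))‖⁻¹) := by
            rw [h10, h11]
            ring
        _ = _ := by
            rw [mul_inv_cancel₀ h9, mul_pow, inv_pow]
            ring
    -- the exponents vanish
    have h8 := exp_pow_aux (l := -(2 * Real.pi * a' / N ^ 2)) (k := k' - w) (c₁ := L / 2 / c)
      (c₂ := 2 * L / c) (by positivity) (by
        filter_upwards [h7.eventually (lt_mem_nhds (show L / 2 < L by linarith)),
          h7.eventually (gt_mem_nhds (show L < 2 * L by linarith))] with y h9 h10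
        constructor
        · rw [div_le_iff₀ hc0, mul_comm]
          exact h9.le
        · rw [le_div_iff₀ hc0, mul_comm]
          exact h10.le)
    obtain ⟨h9, h10⟩ := h8
    have h11 : k' = w := by linarith
    rw [h9, h10] at h7
    simp only [zero_mul, Real.exp_zero, Real.rpow_zero, mul_one] at h7
    have h12 := tendsto_nhds_unique h7 tendsto_const_nhds
    rw [hL, hc, h11, Real.rpow_neg hN'.le, Real.rpow_natCast] at h12
    have h13 : (0 : ℝ) < (N : ℝ) ^ w := by positivity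
    field_simp at h12
    linarith
  -- two periods
  have e1 := key (M * 2) (by omega) (period_mul hMΔ 2)
  have e2 := key (M * 4) (by omega) (period_mul hMΔ 4)
  have hM' : (0 : ℝ) < M := by exact_mod_cast hM
  rw [e1] at e2
  push_cast at e2
  have h1 : (M * 2 : ℝ) < M * 4 := by linarith
  have h2 : ((M : ℝ) * 2) ^ K < ((M : ℝ) * 4) ^ K :=
    pow_lt_pow_left₀ h1 (by positivity) (by omega)
  linarith

end

end Pool.Agent.H25.PP
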