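import Pool.Agent.H93.GS.Root

/-!
# PP Qpb: the finite products near a primitive root of unity (MP_b63d87_nt, helper25)
-/

set_option autoImplicit false

namespace Pool.Agent.H25.PP

open Finset H93GS

theorem norm_one_sub_le {N : ℕ} {z : ℂ} (hz : IsPrimitiveRoot z N) (hN : 0 < N) {t : ℝ}
    (ht : 0 < t) (k : ℕ) : ‖1 - qz z t ^ (k * N)‖ ≤ (k * N : ℕ) * t := by
  have h1 : qz z t ^ (k * N) = ((Real.exp (-t) ^ (k * N) : ℝ) : ℂ) := by
    unfold qz
    rw [mul_pow, mul_comm k N, pow_mul z, hz.pow_eq_one, one_pow, one_mul]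
    push_cast
    rfl
  have h2 : Real.exp (-t) ^ (k * N) ≤ 1 :=
    pow_le_one₀ (Real.exp_pos _).le (Real.exp_le_one_iff.2 (by linarith))
  rw [h1, ← Complex.ofReal_one, ← Complex.ofReal_sub, Complex.norm_real,
    Real.norm_of_nonneg (by linarith), ← Real.exp_nat_mul]
  have h3 := Real.add_one_le_exp (((k * N : ℕ) : ℝ) * -t)
  linarith

/-- the product of the first `j N` factors is `O(t ^ j)` -/
theorem qp_mul_le {N : ℕ} {z : ℂ} (hz : IsPrimitiveRoot z N) (hN : 0 < N) (j : ℕ) :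
    ∃ C : ℝ, 0 < C ∧ ∀ t : ℝ, 0 < t → t ≤ 1 → ‖qp (qz z t) (j * N)‖ ≤ C * t ^ j := by
  have hn : ‖z‖ = 1 := hz.norm'_eq_one hN.ne'
  induction j with
  | zero => exact ⟨1, one_pos, fun t _ _ => by simp [qp]⟩
  | succ j ih =>
    obtain ⟨C, hC, h⟩ := ih
    refine ⟨C * (2 ^ (N - 1) * ((j + 1) * N : ℕ)), by positivity, fun t ht ht1 => ?_⟩
    obtain ⟨M, rfl⟩ : ∃ M, N = M + 1 := ⟨N - 1, by omega⟩
    have h1 : qp (qz z t) ((j + 1) * (M + 1)) = qp (qz z t) (j * (M + 1)) *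
        ((∏ i ∈ range M, (1 - qz z t ^ (j * (M + 1) + i + 1))) *
          (1 - qz z t ^ ((j + 1) * (M + 1)))) := by
      unfold qp
      have e : (j + 1) * (M + 1) = j * (M + 1) + (M + 1) := by ring
      rw [e, Finset.prod_range_add, Finset.prod_range_succ (fun x => 1 - qz z t ^
        (j * (M + 1) + x + 1)) M]
      congr 2
    rw [h1, norm_mul, norm_mul, norm_prod]
    have h2 : ∏ i ∈ range M, ‖1 - qz z t ^ (j * (M + 1) + i + 1)‖ ≤ 2 ^ M := by
      calc ∏ i ∈ range M, ‖1 - qz z t ^ (j * (M + 1) + i + 1)‖ ≤ ∏ _i ∈ range M, (2 : ℝ) :=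
            Finset.prod_le_prod (fun _ _ => norm_nonneg _)
              fun i _ => norm_one_sub_pow_le hn ht.le _
        _ = 2 ^ M := by simp
    have h3 := norm_one_sub_le hz hN ht (j + 1)
    calc ‖qp (qz z t) (j * (M + 1))‖ * ((∏ i ∈ range M, ‖1 - qz z t ^ (j * (M + 1) + i + 1)‖) *
          ‖1 - qz z t ^ ((j + 1) * (M + 1))‖)
        ≤ (C * t ^ j) * (2 ^ M * (((j + 1) * (M + 1) : ℕ) * t)) := by
          refine mul_le_mul (h t ht ht1) (mul_le_mul h2 h3 (norm_nonneg _) (by positivity))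
            (by positivity) (by positivity)
      _ = _ := by
          simp only [Nat.add_sub_cancel]
          rw [pow_succ]
          ring

/-- all later products are `O(t ^ j)` as well -/
theorem qp_ge_le {N : ℕ} {z : ℂ} (hz : IsPrimitiveRoot z N) (hN : 0 < N) (j : ℕ) :
    ∃ C : ℝ, 0 < C ∧ ∀ t : ℝ, 0 < t → t ≤ 1 → ∀ m : ℕ, j * N ≤ m →
      ‖qp (qz z t) m‖ ≤ C * t ^ j := by
  obtain ⟨C₁, h1, h2⟩ := block hN hz.pow_eq_one
  obtain ⟨C₂, h3, h4⟩ := qp_mul_le hz hN j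
  refine ⟨C₁ * C₂, by positivity, fun t ht ht1 m hm => ?_⟩
  calc ‖qp (qz z t) m‖ ≤ C₁ * ‖qp (qz z t) (j * N)‖ := h2 t ht ht1 _ _ hm
    _ ≤ C₁ * (C₂ * t ^ j) := mul_le_mul_of_nonneg_left (h4 t ht ht1) (by positivity)
    _ = _ := by ring

theorem pow_mul_exp_le (j : ℕ) {x : ℝ} (hx : 0 ≤ x) : x ^ j * Real.exp (-x) ≤ j.factorial := by
  have h1 := Real.pow_div_factorial_le_exp x hx j
  have h2 : (0 : ℝ) < j.factorial := by exact_mod_cast j.factorial_pos
  rw [div_le_iff₀ h2] at h1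
  rw [Real.exp_neg, ← div_eq_mul_inv, div_le_iff₀ (Real.exp_pos _)]
  linarith

/-- the polynomial decay, uniform in `t` -/
theorem qp_decay {N : ℕ} {z : ℂ} (hz : IsPrimitiveRoot z N) (hN : 0 < N) (j : ℕ) :
    ∃ C : ℝ, 0 < C ∧ ∀ t : ℝ, 0 < t → t ≤ 1 → ∀ m : ℕ,
      Real.exp (-t) ^ m * ‖qp (qz z t) m‖ ≤ C / (1 + m) ^ j := by
  obtain ⟨C₀, h1, h2⟩ := qp_ge_le hz hN 0
  obtain ⟨C₁, h3, h4⟩ := qp_ge_le hz hN j
  refine ⟨C₀ * (1 + (j * N : ℕ)) ^ j + C₁ * (Real.exp 1 * j.factorial), by positivity,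
    fun t ht ht1 m => ?_⟩
  have hm : (0 : ℝ) < (1 + m) ^ j := by positivity
  have he : Real.exp (-t) ^ m ≤ 1 :=
    pow_le_one₀ (Real.exp_pos _).le (Real.exp_le_one_iff.2 (by linarith))
  have he0 : (0 : ℝ) < Real.exp (-t) ^ m := by positivity
  rw [le_div_iff₀ hm]
  rcases lt_or_ge m (j * N) with h | h
  · have h5 := h2 t ht ht1 m (by omega)
    rw [pow_zero, mul_one] at h5
    have h6 : ((1 : ℝ) + m) ^ j ≤ (1 + (j * N : ℕ)) ^ j := by
      have : (m : ℝ) ≤ (j * N : ℕ) := by exact_mod_cast h.le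
      gcongr
    calc Real.exp (-t) ^ m * ‖qp (qz z t) m‖ * (1 + m) ^ j ≤ 1 * C₀ * (1 + (j * N : ℕ)) ^ j := by
          gcongr
      _ ≤ _ := by
          have : 0 ≤ C₁ * (Real.exp 1 * j.factorial) := by positivity
          linarith
  · have h5 := h4 t ht ht1 m h
    have h6 : Real.exp (-t) ^ m = Real.exp t * Real.exp (-(t * (1 + m))) := by
      rw [← Real.exp_nat_mul, ← Real.exp_add]
      congr 1
      ring
    have h7 := pow_mul_exp_le j (x := t * (1 + m)) (by positivity)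
    have h8 : Real.exp t ≤ Real.exp 1 := Real.exp_le_exp.2 ht1
    calc Real.exp (-t) ^ m * ‖qp (qz z t) m‖ * (1 + m) ^ j
        ≤ (Real.exp t * Real.exp (-(t * (1 + m)))) * (C₁ * t ^ j) * (1 + m) ^ j := by
          rw [← h6]
          gcongr
      _ = C₁ * (Real.exp t * ((t * (1 + m)) ^ j * Real.exp (-(t * (1 + m))))) := by
          rw [mul_pow]
          ring
      _ ≤ C₁ * (Real.exp 1 * j.factorial) := by gcongr
      _ ≤ _ := by
          have : 0 ≤ C₀ * (1 + ((j * N : ℕ) : ℝ)) ^ j := by positivity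
          linarith

end Pool.Agent.H25.PP
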